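import Pool.Agent.Helper57.REC.Stmts6b

/-! # CMG: completely reducible representations of rank two, commutative on a normal subgroup -/

set_option autoImplicit false

open scoped Classical
open MU

namespace Pool.Agent.Helper76.REC

theorem cmg_dim {K : Type} [Field K] {m : ℕ} (B : Matrix (Fin 2) (Fin m) K)
    (C : Matrix (Fin m) (Fin 2) K) (h : C * B = 1) : m ≤ 2 := by
  have h1 : (1 : Matrix (Fin m) (Fin m) K).rank ≤ 2 := by
    rw [← h]
    refine (Matrix.rank_mul_le_right C B).trans ?_
    refine (Matrix.rank_le_card_height B).trans ?_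
    simp
  rwa [Matrix.rank_one, Fintype.card_fin] at h1

theorem comm11 {K : Type} [Field K] (a b : Matrix (Fin 1) (Fin 1) K) : a * b = b * a := by
  ext i j
  fin_cases i
  fin_cases j
  simp [Matrix.mul_apply, mul_comm]

/-- a stable line with a stable complement: the representation is commutative -/
theorem comm_of_line {G K : Type} [Group G] [Field K] (r : G →* Matrix (Fin 2) (Fin 2) K)
    (B : Matrix (Fin 2) (Fin 1) K) (C : Matrix (Fin 1) (Fin 2) K) (A : G → Matrix (Fin 1) (Fin 1) K)
    (h1 : C * B = 1) (h2 : ∀ g, r g * B = B * A g) (h3 : ∀ g, C * r g = A g * C) (g g' : G) :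
    r g * r g' = r g' * r g := by
  obtain ⟨D, E, hDE, hCD⟩ : ∃ (D : Matrix (Fin 2) (Fin 1) K) (E : Matrix (Fin 1) (Fin 2) K),
      B * C + D * E = 1 ∧ C * D = 0 := by
    refine ⟨!![-(C 0 1); C 0 0], !![-(B 1 0), B 0 0], ?_, ?_⟩
    · have h4 := congrFun (congrFun h1 0) 0
      simp only [Matrix.mul_apply, Fin.sum_univ_two, Matrix.one_apply_eq] at h4
      ext i j
      fin_cases i <;> fin_cases j <;> simp [Matrix.mul_apply] <;> first | linear_combination h4 | ring
    · ext i j
      fin_cases i
      fin_cases j
      simp [Matrix.mul_apply, Fin.sum_univ_two]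
      ring
  have hD : ∀ x, r x * D = D * (E * (r x * D)) := by
    intro x
    have e1 : C * (r x * D) = 0 := by
      rw [← Matrix.mul_assoc, h3, Matrix.mul_assoc, hCD, Matrix.mul_zero]
    calc r x * D = (B * C + D * E) * (r x * D) := by rw [hDE, Matrix.one_mul]
      _ = D * (E * (r x * D)) := by
        rw [Matrix.add_mul, Matrix.mul_assoc, e1, Matrix.mul_zero, zero_add, Matrix.mul_assoc]
  have hB2 : ∀ x y, r x * r y * B = B * (A x * A y) := by
    intro x y
    rw [Matrix.mul_assoc, h2, ← Matrix.mul_assoc, h2, Matrix.mul_assoc]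
  have hD2 : ∀ x y, r x * r y * D = D * ((E * (r x * D)) * (E * (r y * D))) := by
    intro x y
    calc r x * r y * D = r x * (r y * D) := Matrix.mul_assoc _ _ _
      _ = r x * (D * (E * (r y * D))) := congrArg (r x * ·) (hD y)
      _ = (r x * D) * (E * (r y * D)) := (Matrix.mul_assoc _ _ _).symm
      _ = (D * (E * (r x * D))) * (E * (r y * D)) := congrArg (· * (E * (r y * D))) (hD x)
      _ = D * ((E * (r x * D)) * (E * (r y * D))) := Matrix.mul_assoc _ _ _
  have e1 : r g * r g' * (B * C + D * E) = r g' * r g * (B * C + D * E) := by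
    rw [Matrix.mul_add, Matrix.mul_add, ← Matrix.mul_assoc, ← Matrix.mul_assoc, ← Matrix.mul_assoc,
      ← Matrix.mul_assoc, hB2, hB2, hD2, hD2, comm11 (A g), comm11 (E * (r g * D))]
  rwa [hDE, Matrix.mul_one, Matrix.mul_one] at e1

/-- the traceless parts of commuting matrices are parallel -/
theorem par_of_comm {K : Type} [Field K] {A X : Matrix (Fin 2) (Fin 2) K} (h : A * X = X * A)
    (hA : A.trace ^ 2 ≠ 4 * A.det) : ∃ b : K, X 0 1 = b * A 0 1 ∧ X 1 0 = b * A 1 0 ∧
      X 0 0 - X 1 1 = b * (A 0 0 - A 1 1) := by
  have e00 := congrFun (congrFun h 0) 0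
  have e01 := congrFun (congrFun h 0) 1
  have e10 := congrFun (congrFun h 1) 0
  simp only [Matrix.mul_apply, Fin.sum_univ_two] at e00 e01 e10
  rw [Matrix.trace_fin_two, Matrix.det_fin_two] at hA
  by_cases h1 : A 0 1 = 0
  · have h3 : A 0 0 - A 1 1 ≠ 0 := by
      intro h3
      apply hA
      linear_combination (A 0 0 - A 1 1) * h3 + 4 * A 1 0 * h1
    refine ⟨(X 0 0 - X 1 1) / (A 0 0 - A 1 1), ?_, ?_, ?_⟩
    · rw [div_mul_eq_mul_div, eq_div_iff h3]
      linear_combination e01
    · rw [div_mul_eq_mul_div, eq_div_iff h3]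
      linear_combination -e10
    · rw [div_mul_cancel₀ _ h3]
  · refine ⟨X 0 1 / A 0 1, ?_, ?_, ?_⟩
    · rw [div_mul_cancel₀ _ h1]
    · rw [div_mul_eq_mul_div, eq_div_iff h1]
      linear_combination e00
    · rw [div_mul_eq_mul_div, eq_div_iff h1]
      linear_combination -e01

theorem comm_of_par {K : Type} [Field K] {A X Y : Matrix (Fin 2) (Fin 2) K} {b c : K}
    (h1 : X 0 1 = b * A 0 1) (h2 : X 1 0 = b * A 1 0) (h3 : X 0 0 - X 1 1 = b * (A 0 0 - A 1 1))
    (k1 : Y 0 1 = c * A 0 1) (k2 : Y 1 0 = c * A 1 0) (k3 : Y 0 0 - Y 1 1 = c * (A 0 0 - A 1 1)) :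
    X * Y = Y * X := by
  have h4 : X 0 0 = X 1 1 + b * (A 0 0 - A 1 1) := by linear_combination h3
  have k4 : Y 0 0 = Y 1 1 + c * (A 0 0 - A 1 1) := by linear_combination k3
  ext i j
  fin_cases i <;> fin_cases j <;> simp only [Matrix.mul_apply, Fin.sum_univ_two, Fin.zero_eta, Fin.mk_one, Fin.isValue, h1, h2,
    h4, k1, k2, k4] <;> ring

/-- **[CMG]** -/
theorem st_CMG (hCL2 : _root_.REC.ST_CL2) : _root_.REC.ST_CMG := by
  intro G K _ _ _ r H hH hss hor
  by_cases hirr : IsIrr r
  · rcases hor with ⟨B, A, hBA⟩ | hcomm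
    · rcases hCL2 G K r H hH hirr B A hBA with h1 | h1
      · exact Or.inl h1
      · exact Or.inr (Or.inl h1)
    · by_cases h4 : ∀ g ∈ H, (r g).trace ^ 2 = 4 * (r g).det
      · exact Or.inr (Or.inl h4)
      push Not at h4
      obtain ⟨h0, hh0, hdsc⟩ := h4
      have hinv : ∀ x : G, r x⁻¹ * r x = 1 := fun x => by rw [← map_mul, inv_mul_cancel, map_one]
      have hinv' : ∀ x : G, r x * r x⁻¹ = 1 := fun x => by rw [← map_mul, mul_inv_cancel, map_one]
      by_cases hall : ∀ g, r h0 * r g = r g * r h0
      · refine Or.inr (Or.inr fun g g' => ?_)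
        obtain ⟨b, b1, b2, b3⟩ := par_of_comm (hall g) hdsc
        obtain ⟨c, c1, c2, c3⟩ := par_of_comm (hall g') hdsc
        exact comm_of_par b1 b2 b3 c1 c2 c3
      · left
        let G' : Subgroup G :=
          { carrier := {g | r h0 * r g = r g * r h0}
            mul_mem' := by
              intro a b ha hb
              show r h0 * r (a * b) = r (a * b) * r h0
              have ha' : r h0 * r a = r a * r h0 := ha
              have hb' : r h0 * r b = r b * r h0 := hb
              rw [map_mul, ← Matrix.mul_assoc, ha', Matrix.mul_assoc, hb', Matrix.mul_assoc]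
            one_mem' := by
              show r h0 * r 1 = r 1 * r h0
              rw [map_one, Matrix.mul_one, Matrix.one_mul]
            inv_mem' := by
              intro a ha
              have ha' : r h0 * r a = r a * r h0 := ha
              show r h0 * r a⁻¹ = r a⁻¹ * r h0
              calc r h0 * r a⁻¹ = (r a⁻¹ * r a) * r h0 * r a⁻¹ := by rw [hinv, Matrix.one_mul]
                _ = r a⁻¹ * (r h0 * r a) * r a⁻¹ := by rw [ha']; simp only [Matrix.mul_assoc]
                _ = r a⁻¹ * r h0 * (r a * r a⁻¹) := by simp only [Matrix.mul_assoc]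
                _ = r a⁻¹ * r h0 := by rw [hinv', Matrix.mul_one] }
        refine ⟨G', fun x hx => hcomm h0 hh0 x hx, fun htop => hall fun g => ?_, fun g hg => ?_⟩
        · have : g ∈ G' := by rw [htop]; exact Subgroup.mem_top g
          exact this
        · have hg' : r h0 * r g ≠ r g * r h0 := hg
          have hx := hcomm h0 hh0 (g * h0 * g⁻¹) (hH.conj_mem h0 hh0 g)
          have hX : r (g * h0 * g⁻¹) * r g = r g * r h0 := by
            rw [← map_mul, ← map_mul]
            congr 1
            group
          have htr : (r (g * h0 * g⁻¹)).trace = (r h0).trace := by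
            rw [map_mul, map_mul, Matrix.trace_mul_comm, ← Matrix.mul_assoc, hinv, Matrix.one_mul]
          have hdet : (r (g * h0 * g⁻¹)).det = (r h0).det := by
            rw [map_mul, map_mul, Matrix.det_mul, Matrix.det_mul, mul_right_comm, ← Matrix.det_mul, hinv',
              Matrix.det_one, one_mul]
          obtain ⟨b, b1, b2, b3⟩ := par_of_comm hx hdsc
          generalize r (g * h0 * g⁻¹) = X at *
          generalize r h0 = A at *
          generalize r g = T at *
          rw [Matrix.trace_fin_two, Matrix.trace_fin_two] at htr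
          rw [Matrix.det_fin_two, Matrix.det_fin_two] at hdet
          rw [Matrix.trace_fin_two, Matrix.det_fin_two] at hdsc
          have hb : (b ^ 2 - 1) * ((A 0 0 + A 1 1) ^ 2 - 4 * (A 0 0 * A 1 1 - A 0 1 * A 1 0)) = 0 := by
            have e1 : (X 0 0 + X 1 1) ^ 2 - 4 * (X 0 0 * X 1 1 - X 0 1 * X 1 0) =
                b ^ 2 * ((A 0 0 + A 1 1) ^ 2 - 4 * (A 0 0 * A 1 1 - A 0 1 * A 1 0)) := by
              rw [b1, b2]
              linear_combination (X 0 0 - X 1 1 + b * (A 0 0 - A 1 1)) * b3
            linear_combination -e1 + (X 0 0 + X 1 1 + A 0 0 + A 1 1) * htr - 4 * hdet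
          have hb' : (b - 1) * (b + 1) = 0 := by
            rcases mul_eq_zero.mp hb with h5 | h5
            · linear_combination h5
            · exact absurd (sub_eq_zero.mp h5) hdsc
          rcases mul_eq_zero.mp hb' with h5 | h5
          · exfalso
            apply hg'
            have hb1 : b = 1 := by linear_combination h5
            subst hb1
            have hXA : X = A := by
              have d0 : X 0 0 = A 0 0 := by linear_combination (1 / 2) * htr + (1 / 2) * b3
              have d1 : X 1 1 = A 1 1 := by linear_combination (1 / 2) * htr - (1 / 2) * b3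
              ext i j
              fin_cases i <;> fin_cases j
              · exact d0
              · rw [one_mul] at b1
                exact b1
              · rw [one_mul] at b2
                exact b2
              · exact d1
            rw [← hX, hXA]
          · have hb1 : b = -1 := by linear_combination h5
            subst hb1
            have d0 : X 0 0 = A 1 1 := by linear_combination (1 / 2) * htr + (1 / 2) * b3
            have d1 : X 1 1 = A 0 0 := by linear_combination (1 / 2) * htr - (1 / 2) * b3
            have e00 := congrFun (congrFun hX 0) 0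
            have e01 := congrFun (congrFun hX 0) 1
            have e10 := congrFun (congrFun hX 1) 0
            have e11 := congrFun (congrFun hX 1) 1
            simp only [Matrix.mul_apply, Fin.sum_univ_two, b1, b2, d0, d1] at e00 e01 e10 e11
            rw [Matrix.trace_fin_two]
            have key : (T 0 0 + T 1 1) * ((A 0 0 + A 1 1) ^ 2 - 4 * (A 0 0 * A 1 1 - A 0 1 * A 1 0)) = 0 := by
              linear_combination (A 1 1 - A 0 0) * e00 + (A 0 0 - A 1 1) * e11 - 2 * A 1 0 * e01 - 2 * A 0 1 * e10
            rcases mul_eq_zero.mp key with h6 | h6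
            · exact h6
            · exact absurd (sub_eq_zero.mp h6) hdsc
  · unfold IsIrr at hirr
    push Not at hirr
    obtain ⟨m, B, A, hBA, hm0, hm2⟩ := hirr
    obtain ⟨C, hC⟩ := hBA.1
    have hm := cmg_dim B C hC
    obtain rfl : m = 1 := by omega
    obtain ⟨C', hC', hC2⟩ := hss 1 B A hBA
    exact Or.inr (Or.inr fun g g' => comm_of_line r B C' A hC' hBA.2 hC2 g g')

end Pool.Agent.Helper76.REC
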