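import Pool.Agent.Helper57.REC.Stmts6b

/-! # DIS: the discriminant depends only on the adelic realization -/

set_option autoImplicit false

open scoped Classical
open MU

namespace Pool.Agent.Helper76.REC

open _root_.REC (dsc IsGen)

theorem dsc_tr {R : Type} [CommRing R] (A : Matrix (Fin 2) (Fin 2) R) : dsc A = A.trace ^ 2 - 4 * A.det := by
  rw [Matrix.trace_fin_two, Matrix.det_fin_two, dsc]

theorem dsc_map {R R' : Type} [CommRing R] [CommRing R'] (f : R →+* R') (A : Matrix (Fin 2) (Fin 2) R) :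
    dsc (A.map f) = f (dsc A) := by
  simp only [dsc, Matrix.map_apply, map_sub, map_add, map_mul, map_pow, map_ofNat]

theorem dsc_conj {R : Type} [CommRing R] (u : Matrix.GeneralLinearGroup (Fin 2) R) (A : Matrix (Fin 2) (Fin 2) R) :
    dsc ((u : Matrix (Fin 2) (Fin 2) R) * A * ((u⁻¹ : Matrix.GeneralLinearGroup (Fin 2) R) : Matrix (Fin 2) (Fin 2) R)) = dsc A := by
  rw [dsc_tr, dsc_tr A]
  have h1 : ((u⁻¹ : Matrix.GeneralLinearGroup (Fin 2) R) : Matrix (Fin 2) (Fin 2) R) * u = 1 := u.inv_mul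
  have h2 : (u : Matrix (Fin 2) (Fin 2) R) * ((u⁻¹ : Matrix.GeneralLinearGroup (Fin 2) R) : Matrix (Fin 2) (Fin 2) R) = 1 := u.mul_inv
  have h3 : ((u : Matrix (Fin 2) (Fin 2) R) * A * ((u⁻¹ : Matrix.GeneralLinearGroup (Fin 2) R) : Matrix (Fin 2) (Fin 2) R)).trace = A.trace := by
    rw [Matrix.trace_mul_comm, ← Matrix.mul_assoc, h1, Matrix.one_mul]
  have h4 : ((u : Matrix (Fin 2) (Fin 2) R) * A * ((u⁻¹ : Matrix.GeneralLinearGroup (Fin 2) R) : Matrix (Fin 2) (Fin 2) R)).det = A.det := by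
    rw [Matrix.det_mul, Matrix.det_mul, mul_right_comm, ← Matrix.det_mul, h2, Matrix.det_one, one_mul]
  rw [h3, h4]

theorem dsc_aff {R : Type} [CommRing R] (a b : R) (A : Matrix (Fin 2) (Fin 2) R) :
    dsc (a • (1 : Matrix (Fin 2) (Fin 2) R) + b • A) = b ^ 2 * dsc A := by
  simp only [dsc, Matrix.add_apply, Matrix.smul_apply, Matrix.one_apply, smul_eq_mul]
  simp
  ring

variable {F : Type} [Field F] [NumberField F] {S : Finset ℕ} {w : ℕ} {h : Fin 2 → ℕ}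

theorem dvd_l {M M' : Mot F S 2 w h} {ω ω' : Matrix (Fin 2) (Fin 2) ℤ} (h1 : IsGen M ω) (h2 : IsGen M' ω')
    {l : ℕ} [Fact l.Prime] (u : Matrix.GeneralLinearGroup (Fin 2) ℤ_[l])
    (hu : ∀ g : Gal F, u * M.ρ l g = M'.ρ l g * u) : (algebraMap ℤ ℤ_[l] (dsc ω')) ∣ algebraMap ℤ ℤ_[l] (dsc ω) := by
  obtain ⟨a, b, hab⟩ := (h2.2 l).2 ((u : Matrix (Fin 2) (Fin 2) ℤ_[l]) * ω.map (algebraMap ℤ ℤ_[l]) *
    ((u⁻¹ : Matrix.GeneralLinearGroup (Fin 2) ℤ_[l]) : Matrix (Fin 2) (Fin 2) ℤ_[l])) (by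
    intro g
    have e1 : (M'.ρ l g : Matrix (Fin 2) (Fin 2) ℤ_[l]) = (u : Matrix (Fin 2) (Fin 2) ℤ_[l]) * (M.ρ l g : Matrix (Fin 2) (Fin 2) ℤ_[l]) * ((u⁻¹ : Matrix.GeneralLinearGroup (Fin 2) ℤ_[l]) : Matrix (Fin 2) (Fin 2) ℤ_[l]) := by
      have : M'.ρ l g = u * M.ρ l g * u⁻¹ := by
        rw [hu g, mul_inv_cancel_right]
      exact congrArg (fun z : Matrix.GeneralLinearGroup (Fin 2) ℤ_[l] => (z : Matrix (Fin 2) (Fin 2) ℤ_[l])) this
    have e2 := (h1.2 l).1 g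
    have e3 : ((u⁻¹ : Matrix.GeneralLinearGroup (Fin 2) ℤ_[l]) : Matrix (Fin 2) (Fin 2) ℤ_[l]) * u = 1 := u.inv_mul
    rw [e1]
    generalize (u : Matrix (Fin 2) (Fin 2) ℤ_[l]) = U at *
    generalize ((u⁻¹ : Matrix.GeneralLinearGroup (Fin 2) ℤ_[l]) : Matrix (Fin 2) (Fin 2) ℤ_[l]) = V at *
    generalize (M.ρ l g : Matrix (Fin 2) (Fin 2) ℤ_[l]) = R at *
    generalize ω.map (algebraMap ℤ ℤ_[l]) = W at *
    calc U * W * V * (U * R * V) = U * W * (V * U) * R * V := by simp only [Matrix.mul_assoc]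
      _ = U * (W * R) * V := by rw [e3, Matrix.mul_one]; simp only [Matrix.mul_assoc]
      _ = U * (R * W) * V := by rw [e2]
      _ = U * R * (V * U) * W * V := by rw [e3, Matrix.mul_one]; simp only [Matrix.mul_assoc]
      _ = U * R * V * (U * W * V) := by simp only [Matrix.mul_assoc])
  have h3 := dsc_conj u (ω.map (algebraMap ℤ ℤ_[l]))
  rw [hab, dsc_aff, dsc_map, dsc_map] at h3
  exact ⟨b ^ 2, by rw [← h3, mul_comm]⟩

theorem dvd_int {a b : ℤ} (h : ∀ (l : ℕ) [Fact l.Prime], algebraMap ℤ ℤ_[l] a ∣ algebraMap ℤ ℤ_[l] b) :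
    a.natAbs ∣ b.natAbs := by
  rw [Nat.dvd_iff_prime_pow_dvd_dvd]
  intro p k hp hk
  have : Fact p.Prime := ⟨hp⟩
  have h1 : ((p ^ k : ℕ) : ℤ) ∣ a := Int.natCast_dvd.mpr hk
  have h2 : (p : ℤ_[p]) ^ k ∣ algebraMap ℤ ℤ_[p] a := by
    have := PadicInt.pow_p_dvd_int_iff k a (p := p)
    rw [eq_intCast, this]
    exact_mod_cast h1
  have h3 := h2.trans (h p)
  rw [eq_intCast, PadicInt.pow_p_dvd_int_iff k b] at h3
  exact Int.natCast_dvd.mp (by exact_mod_cast h3)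

/-- **[DIS]** -/
theorem st_DIS : _root_.REC.ST_DIS := by
  intro F _ _ S w h M M' ω ω' h1 h2 hA
  apply Nat.dvd_antisymm
  · refine dvd_int fun l _ => ?_
    obtain ⟨u, hu⟩ := hA l
    refine dvd_l h2 h1 u⁻¹ fun g => ?_
    have h3 : M'.ρ l g = u * M.ρ l g * u⁻¹ := by
      rw [hu g, mul_inv_cancel_right]
    rw [h3]
    group
  · refine dvd_int fun l _ => ?_
    obtain ⟨u, hu⟩ := hA l
    exact dvd_l h1 h2 u hu

end Pool.Agent.Helper76.REC
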