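import Pool.Agent.Helper57.REC.Stmts6b

/-! # TIS: the Tate conjecture gives isogenies -/

set_option autoImplicit false

open scoped Classical
open MU

namespace Pool.Agent.Helper76.REC

variable {F : Type} [Field F] [NumberField F] {S : Finset ℕ} {n w : ℕ} {h : Fin n → ℕ}

theorem rat_apply {G : Type} [Group G] {n l : ℕ} [Fact l.Prime]
    (r : G →* Matrix.GeneralLinearGroup (Fin n) ℤ_[l]) (g : G) :
    rat r g = (r g : Matrix (Fin n) (Fin n) ℤ_[l]).map (algebraMap ℤ_[l] ℚ_[l]) := rfl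

/-- homomorphisms form a subspace -/
theorem hm_sum (M M' : Mot F S n w h) {k : ℕ} (u : Fin k → Matrix (Fin n) (Fin n) ℚ)
    (hu : ∀ i, _root_.REC.Hm M M' (u i)) (x : Fin k → ℚ) :
    _root_.REC.Hm M M' (∑ i, x i • u i) := by
  intro l _ g
  have h1 : (∑ i, x i • u i).map (algebraMap ℚ ℚ_[l]) =
      ∑ i, (algebraMap ℚ ℚ_[l] (x i)) • (u i).map (algebraMap ℚ ℚ_[l]) := by
    ext a b
    rw [Matrix.map_apply, Matrix.sum_apply, Matrix.sum_apply, map_sum]
    refine Finset.sum_congr rfl fun i _ => ?_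
    rw [Matrix.smul_apply, Matrix.smul_apply, Matrix.map_apply, smul_eq_mul, smul_eq_mul, map_mul]
  rw [h1, Finset.sum_mul, Finset.mul_sum]
  refine Finset.sum_congr rfl fun i _ => ?_
  rw [Matrix.smul_mul, Matrix.mul_smul, hu i l g]

/-- a rational point where the determinant does not vanish -/
theorem exists_rat {n k : ℕ} (K : Type) [Field K] [Algebra ℚ K] (u : Fin k → Matrix (Fin n) (Fin n) ℚ)
    (c : Fin k → K) (hc : (∑ i, c i • (u i).map (algebraMap ℚ K)).det ≠ 0) :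
    ∃ x : Fin k → ℚ, (∑ i, x i • u i).det ≠ 0 := by
  by_contra hcon
  push Not at hcon
  set P : MvPolynomial (Fin k) ℚ :=
    (∑ i, (MvPolynomial.X i : MvPolynomial (Fin k) ℚ) • (u i).map (MvPolynomial.C : ℚ →+* _)).det with hP
  have hP0 : P = 0 := by
    apply MvPolynomial.funext
    intro x
    rw [map_zero, hP, RingHom.map_det, ← hcon x]
    congr 1
    ext a b
    rw [RingHom.mapMatrix_apply, Matrix.map_apply, Matrix.sum_apply, Matrix.sum_apply, map_sum]
    refine Finset.sum_congr rfl fun i _ => ?_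
    rw [Matrix.smul_apply, Matrix.smul_apply, Matrix.map_apply, smul_eq_mul, smul_eq_mul, map_mul,
      MvPolynomial.eval_X, MvPolynomial.eval_C]
  apply hc
  have h2 : MvPolynomial.aeval c P = 0 := by rw [hP0, map_zero]
  rw [← h2, hP]
  rw [← AlgHom.coe_toRingHom, RingHom.map_det]
  congr 1
  ext a b
  rw [RingHom.mapMatrix_apply, Matrix.map_apply, Matrix.sum_apply, Matrix.sum_apply, map_sum]
  refine Finset.sum_congr rfl fun i _ => ?_
  rw [Matrix.smul_apply, Matrix.smul_apply, Matrix.map_apply, smul_eq_mul, smul_eq_mul, map_mul,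
    AlgHom.coe_toRingHom, MvPolynomial.aeval_X, Matrix.map_apply, MvPolynomial.aeval_C]

/-- **[TIS]** -/
theorem st_TIS : _root_.REC.ST_TIS := by
  intro F _ _ S n w h M M' hT hA
  have : Fact (Nat.Prime 2) := ⟨Nat.prime_two⟩
  obtain ⟨u, hu⟩ := hA 2
  set y : Matrix (Fin n) (Fin n) ℚ_[2] := (u : Matrix (Fin n) (Fin n) ℤ_[2]).map (algebraMap ℤ_[2] ℚ_[2]) with hy
  have hy1 : ∀ g : Gal F, y * rat (M.ρ 2) g = rat (M'.ρ 2) g * y := by
    intro g
    rw [hy, rat_apply, rat_apply, ← Matrix.map_mul, ← Matrix.map_mul]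
    congr 1
    have h1 := congrArg (fun z : Matrix.GeneralLinearGroup (Fin n) ℤ_[2] => (z : Matrix (Fin n) (Fin n) ℤ_[2])) (hu g)
    simpa using h1
  have hy2 : y.det ≠ 0 := by
    have h1 : y.det = algebraMap ℤ_[2] ℚ_[2] (u : Matrix (Fin n) (Fin n) ℤ_[2]).det := by
      rw [RingHom.map_det]
      rfl
    rw [h1]
    intro h2
    have h3 := (IsFractionRing.injective ℤ_[2] ℚ_[2]) (h2.trans (map_zero _).symm)
    have h4 : IsUnit (u : Matrix (Fin n) (Fin n) ℤ_[2]).det := (Matrix.isUnit_iff_isUnit_det _).mp u.isUnit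
    rw [h3] at h4
    exact not_isUnit_zero h4
  have h1 := hT 2 y hy1
  rw [Submodule.mem_span_set'] at h1
  obtain ⟨k, c, z, hz⟩ := h1
  have h2 : ∀ i, ∃ v : Matrix (Fin n) (Fin n) ℚ, _root_.REC.Hm M M' v ∧
      (z i : Matrix (Fin n) (Fin n) ℚ_[2]) = v.map (algebraMap ℚ ℚ_[2]) := fun i => (z i).2
  choose v hv hzv using h2
  have h3 : (∑ i, c i • (v i).map (algebraMap ℚ ℚ_[2])).det ≠ 0 := by
    have h4 : ∑ i, c i • (v i).map (algebraMap ℚ ℚ_[2]) = y := by
      rw [← hz]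
      exact Finset.sum_congr rfl fun i _ => by rw [hzv i]
    rw [h4]
    exact hy2
  obtain ⟨x, hx⟩ := exists_rat ℚ_[2] v c h3
  refine ⟨Matrix.GeneralLinearGroup.mkOfDetNeZero _ hx, ?_⟩
  exact hm_sum M M' v hv x

end Pool.Agent.Helper76.REC
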